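import Pool.Agent.W8.LS.Stm

open scoped Topology ContDiff ComplexOrder
open Complex (I)

namespace Pool.Agent.W491.LS

open Pool.Agent.W8.LS

noncomputable section

/-- the compact fundamental box -/
def bx : Set V :=
  Set.Icc (0 : ℝ) 1 ×ˢ (Set.Icc (0 : ℝ) 1 ×ˢ
    ((Set.Icc (0 : ℝ) 1 ×ℂ Set.Icc (0 : ℝ) 1) ×ˢ (Set.Icc (0 : ℝ) 1 ×ℂ Set.Icc (0 : ℝ) 2)))

theorem bx_compact : IsCompact bx :=
  isCompact_Icc.prod (isCompact_Icc.prod
    ((isCompact_Icc.reProdIm isCompact_Icc).prod (isCompact_Icc.reProdIm isCompact_Icc)))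

theorem mem_bx (P : V) : P ∈ bx ↔ (0 ≤ P.1 ∧ P.1 ≤ 1) ∧ (0 ≤ P.2.1 ∧ P.2.1 ≤ 1) ∧
    ((0 ≤ P.2.2.1.re ∧ P.2.2.1.re ≤ 1) ∧ (0 ≤ P.2.2.1.im ∧ P.2.2.1.im ≤ 1)) ∧
    ((0 ≤ P.2.2.2.re ∧ P.2.2.2.re ≤ 1) ∧ (0 ≤ P.2.2.2.im ∧ P.2.2.2.im ≤ 2)) := by
  unfold bx
  simp only [Set.mem_prod, Complex.mem_reProdIm, Set.mem_Icc]

theorem red (P : V) : ∃ Q ∈ bx, rel P Q := by
  set k : ℤ := -⌊P.2.2.1.re⌋ with hk
  set l : ℤ := -⌊P.2.2.1.im⌋ with hl
  set m : ℤ := -⌊P.2.2.2.re⌋ with hm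
  set r : ℤ := ⌊(P.2.2.2.im - 2 * k * P.2.1 - √2 * m) / 2⌋ with hr
  refine ⟨act 1 k l (-⌊P.1 - 2 * k * P.2.2.1.im⌋) (-⌊P.2.1⌋) m r P, ?_,
    1, k, l, -⌊P.1 - 2 * k * P.2.2.1.im⌋, -⌊P.2.1⌋, m, r, Or.inl rfl, rfl⟩
  rw [mem_bx]
  unfold act
  have f1 := Int.floor_le (P.1 - 2 * k * P.2.2.1.im)
  have f1' := Int.lt_floor_add_one (P.1 - 2 * k * P.2.2.1.im)
  have f2 := Int.floor_le P.2.1
  have f2' := Int.lt_floor_add_one P.2.1
  have f3 := Int.floor_le P.2.2.1.re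
  have f3' := Int.lt_floor_add_one P.2.2.1.re
  have f4 := Int.floor_le P.2.2.1.im
  have f4' := Int.lt_floor_add_one P.2.2.1.im
  have f5 := Int.floor_le P.2.2.2.re
  have f5' := Int.lt_floor_add_one P.2.2.2.re
  have f6 := Int.floor_le ((P.2.2.2.im - 2 * k * P.2.1 - √2 * m) / 2)
  have f6' := Int.lt_floor_add_one ((P.2.2.2.im - 2 * k * P.2.1 - √2 * m) / 2)
  rw [← hr] at f6 f6'
  have ek : (k : ℝ) = -(⌊P.2.2.1.re⌋ : ℝ) := by rw [hk]; push_cast; ring
  have el : (l : ℝ) = -(⌊P.2.2.1.im⌋ : ℝ) := by rw [hl]; push_cast; ring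
  have em : (m : ℝ) = -(⌊P.2.2.2.re⌋ : ℝ) := by rw [hm]; push_cast; ring
  have r1 : (((1 : ℤ) : ℂ) * (P.2.2.1 + (k : ℂ) + (l : ℂ) * I)).re = P.2.2.1.re + k := by
    simp
  have r2 : (((1 : ℤ) : ℂ) * (P.2.2.1 + (k : ℂ) + (l : ℂ) * I)).im = P.2.2.1.im + l := by
    simp
  have r3 : (((1 : ℤ) : ℂ) * (P.2.2.2 + (m : ℂ) -
      ((2 * k * P.2.1 + √2 * m + 2 * r : ℝ) : ℂ) * I)).re = P.2.2.2.re + m := by
    simp [-Complex.ofReal_add, -Complex.ofReal_mul]
  have r4 : (((1 : ℤ) : ℂ) * (P.2.2.2 + (m : ℂ) -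
      ((2 * k * P.2.1 + √2 * m + 2 * r : ℝ) : ℂ) * I)).im =
        P.2.2.2.im - (2 * k * P.2.1 + √2 * m + 2 * r) := by
    simp [-Complex.ofReal_add, -Complex.ofReal_mul]
  dsimp only
  rw [r1, r2, r3, r4]
  push_cast
  refine ⟨⟨by linarith, by linarith⟩, ⟨by linarith, by linarith⟩,
    ⟨⟨by linarith, by linarith⟩, ⟨by linarith, by linarith⟩⟩,
    ⟨⟨by linarith, by linarith⟩, ⟨by linarith, by linarith⟩⟩⟩

/-- neighbourhoods of the fixed surfaces -/
def Nb (k l m r : ℤ) : Set V :=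
  {P | ‖(siteInv k l m r P).2.2.1‖ < 1 / 16 ∧ ‖(siteInv k l m r P).2.2.2‖ < 1 / 16}

theorem Nb_open (hS : SiteSmooth) (k l m r : ℤ) : IsOpen (Nb k l m r) := by
  have hc : Continuous (siteInv k l m r) := (hS k l m r).2.1.1.continuous
  exact (isOpen_lt (continuous_fst.comp (continuous_snd.comp (continuous_snd.comp hc))).norm
      continuous_const).inter
    (isOpen_lt (continuous_snd.comp (continuous_snd.comp (continuous_snd.comp hc))).norm
      continuous_const)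

/-- the compact set of regular points -/
def KK : Set V := bx ∩ (⋃ k : ℤ, ⋃ l : ℤ, ⋃ m : ℤ, ⋃ r : ℤ, Nb k l m r)ᶜ

theorem KK_compact (hS : SiteSmooth) : IsCompact KK := by
  refine bx_compact.inter_right ?_
  exact (isOpen_iUnion fun k => isOpen_iUnion fun l => isOpen_iUnion fun m =>
    isOpen_iUnion fun r => Nb_open hS k l m r).isClosed_compl

theorem not_mem_KK {P : V} (hP : P ∈ bx) (h : P ∉ KK) : ∃ k l m r : ℤ, P ∈ Nb k l m r := by
  by_contra hn
  apply h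
  refine ⟨hP, ?_⟩
  intro hm
  simp only [Set.mem_iUnion] at hm
  exact hn hm

theorem bounds (k l m r : ℤ) (s c : ℝ) (z w : ℂ) (hz : ‖z‖ < 1 / 16) (hw : ‖w‖ < 1 / 16)
    (h : site k l m r (s, c, z, w) ∈ bx) :
    (|k| ≤ 100 ∧ |l| ≤ 100 ∧ |m| ≤ 100 ∧ |r| ≤ 100) ∧ |s| ≤ 100 ∧ |c| ≤ 100 := by
  rw [mem_bx] at h
  unfold site at h
  dsimp only at h
  have r1 : (z - ((k : ℂ) + (l : ℂ) * I) / 2).re = z.re - k / 2 := by
    have : ((k : ℂ) + (l : ℂ) * I) / 2 = ((k / 2 : ℝ) : ℂ) + ((l / 2 : ℝ) : ℂ) * I := by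
      push_cast; ring
    rw [this]; simp [-Complex.ofReal_div]
  have r2 : (z - ((k : ℂ) + (l : ℂ) * I) / 2).im = z.im - l / 2 := by
    have : ((k : ℂ) + (l : ℂ) * I) / 2 = ((k / 2 : ℝ) : ℂ) + ((l / 2 : ℝ) : ℂ) * I := by
      push_cast; ring
    rw [this]; simp [-Complex.ofReal_div]
  have r3 : (w - (m : ℂ) / 2 + (((k : ℝ) * c + (√2 * m + 2 * r) / 2 : ℝ) : ℂ) * I).re =
      w.re - m / 2 := by
    have : (m : ℂ) / 2 = ((m / 2 : ℝ) : ℂ) := by push_cast; ring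
    rw [this]; simp [-Complex.ofReal_div, -Complex.ofReal_add, -Complex.ofReal_mul]
  have r4 : (w - (m : ℂ) / 2 + (((k : ℝ) * c + (√2 * m + 2 * r) / 2 : ℝ) : ℂ) * I).im =
      w.im + (k * c + (√2 * m + 2 * r) / 2) := by
    have : (m : ℂ) / 2 = ((m / 2 : ℝ) : ℂ) := by push_cast; ring
    rw [this]; simp [-Complex.ofReal_div, -Complex.ofReal_add, -Complex.ofReal_mul]
  rw [r1, r2, r3, r4] at h
  obtain ⟨⟨h1, h1'⟩, ⟨h2, h2'⟩, ⟨⟨h3, h3'⟩, ⟨h4, h4'⟩⟩, ⟨⟨h5, h5'⟩, ⟨h6, h6'⟩⟩⟩ := h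
  have az := abs_le.1 ((Complex.abs_re_le_norm z).trans hz.le)
  have az' := abs_le.1 ((Complex.abs_im_le_norm z).trans hz.le)
  have aw := abs_le.1 ((Complex.abs_re_le_norm w).trans hw.le)
  have aw' := abs_le.1 ((Complex.abs_im_le_norm w).trans hw.le)
  have k1 : (k : ℝ) ≤ 1 := by linarith [az.1, az.2]
  have k2 : (-3 : ℝ) ≤ k := by linarith [az.1, az.2]
  have l1 : (l : ℝ) ≤ 1 := by linarith [az'.1, az'.2]
  have l2 : (-3 : ℝ) ≤ l := by linarith [az'.1, az'.2]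
  have m1 : (m : ℝ) ≤ 1 := by linarith [aw.1, aw.2]
  have m2 : (-3 : ℝ) ≤ m := by linarith [aw.1, aw.2]
  have s2 : √2 ≤ 2 := by
    rw [Real.sqrt_le_left (by norm_num)]; norm_num
  have s0 : 0 ≤ √2 := Real.sqrt_nonneg 2
  have kc : |(k : ℝ) * c| ≤ 3 := by
    rw [abs_mul]
    have a1 : |(k : ℝ)| ≤ 3 := abs_le.2 ⟨by linarith, by linarith⟩
    have a2 : |c| ≤ 1 := abs_le.2 ⟨by linarith, by linarith⟩
    nlinarith [abs_nonneg (k : ℝ), abs_nonneg c]
  have sm : |√2 * (m : ℝ)| ≤ 6 := by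
    rw [abs_mul, abs_of_nonneg s0]
    have a1 : |(m : ℝ)| ≤ 3 := abs_le.2 ⟨by linarith, by linarith⟩
    nlinarith [abs_nonneg (m : ℝ)]
  have kz : |(k : ℝ) * z.im| ≤ 3 := by
    rw [abs_mul]
    have a1 : |(k : ℝ)| ≤ 3 := abs_le.2 ⟨by linarith, by linarith⟩
    have a2 : |z.im| ≤ 1 := abs_le.2 ⟨by linarith [az'.1], by linarith [az'.2]⟩
    nlinarith [abs_nonneg (k : ℝ), abs_nonneg z.im]
  have kc' := abs_le.1 kc
  have sm' := abs_le.1 sm
  have kz' := abs_le.1 kz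
  have rr1 : (r : ℝ) ≤ 100 := by linarith [aw'.1, aw'.2, kc'.1, kc'.2, sm'.1, sm'.2]
  have rr2 : (-100 : ℝ) ≤ r := by linarith [aw'.1, aw'.2, kc'.1, kc'.2, sm'.1, sm'.2]
  refine ⟨⟨?_, ?_, ?_, ?_⟩, ?_, ?_⟩
  · rw [abs_le]; constructor
    · have : ((-100 : ℤ) : ℝ) ≤ k := by push_cast; linarith
      exact_mod_cast this
    · have : (k : ℝ) ≤ ((100 : ℤ) : ℝ) := by push_cast; linarith
      exact_mod_cast this
  · rw [abs_le]; constructor
    · have : ((-100 : ℤ) : ℝ) ≤ l := by push_cast; linarith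
      exact_mod_cast this
    · have : (l : ℝ) ≤ ((100 : ℤ) : ℝ) := by push_cast; linarith
      exact_mod_cast this
  · rw [abs_le]; constructor
    · have : ((-100 : ℤ) : ℝ) ≤ m := by push_cast; linarith
      exact_mod_cast this
    · have : (m : ℝ) ≤ ((100 : ℤ) : ℝ) := by push_cast; linarith
      exact_mod_cast this
  · rw [abs_le]; constructor
    · have : ((-100 : ℤ) : ℝ) ≤ r := by push_cast; linarith
      exact_mod_cast this
    · have : (r : ℝ) ≤ ((100 : ℤ) : ℝ) := by push_cast; linarith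
      exact_mod_cast this
  · rw [abs_le]; constructor <;> linarith [kz'.1, kz'.2]
  · rw [abs_le]; constructor <;> linarith

theorem sqnorm {z : ℂ} (hz : ‖z‖ < 1 / 16) : ‖z ^ 2 / 2‖ ≤ 1 / 500 := by
  rw [norm_div, norm_pow]
  have h2 : ‖(2 : ℂ)‖ = 2 := by simp
  rw [h2]
  nlinarith [norm_nonneg z]

theorem CompactCover_proof : CompactCover := by
  intro hF
  obtain ⟨hRE, hAS, hSR, hPE, hActS, hSS, hFl, hSC, hNS, hNSi, hSiR, hSq, hRC, hLS, hLT⟩ := hF
  refine ⟨KK, KK_compact hSS, ?_, 100, ?_⟩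
  · rintro P ⟨hP, hPn⟩ ⟨k, l, m, r, s, c, hs⟩
    apply hPn
    simp only [Set.mem_iUnion]
    refine ⟨k, l, m, r, ?_⟩
    unfold Nb
    rw [hs]
    simp only [Set.mem_ofPred_eq]
    rw [(hSS k l m r).2.2.1 (s, c, 0, 0)]
    simp
  · intro x
    obtain ⟨⟨P0, d⟩, rfl⟩ := Quot.exists_rep x
    change (∃ P ∈ KK, chR P = pt P0 d) ∨ _
    obtain ⟨P, hP, hr⟩ := red P0
    have hx : (Quot.mk R (P0, d) : M) = pt P d := (hPE P0 P d d).2 ⟨hr, fun _ => rfl⟩
    have hx' : pt P0 d = pt P d := hx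
    rw [hx, hx']
    by_cases hK : P ∈ KK
    · left
      refine ⟨P, hK, ?_⟩
      refine (hPE P P (some 0) d).2 ⟨hRE.refl P, ?_⟩
      intro hs
      exfalso
      obtain ⟨k, l, m, r, s, c, hs⟩ := hs
      apply hK.2
      simp only [Set.mem_iUnion]
      refine ⟨k, l, m, r, ?_⟩
      unfold Nb
      rw [hs]
      simp only [Set.mem_ofPred_eq]
      rw [(hSS k l m r).2.2.1 (s, c, 0, 0)]
      simp
    · right
      obtain ⟨k, l, m, r, hN⟩ := not_mem_KK hP hK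
      obtain ⟨s, c, z, w, hQ⟩ : ∃ s c z w, siteInv k l m r P = (s, c, z, w) :=
        ⟨_, _, _, _, rfl⟩
      have hPs : P = site k l m r (s, c, z, w) := by
        rw [← hQ]; exact ((hSS k l m r).2.2.2 P).symm
      have hz : ‖z‖ < 1 / 16 := by
        have := hN.1; rw [hQ] at this; exact this
      have hw : ‖w‖ < 1 / 16 := by
        have := hN.2; rw [hQ] at this; exact this
      have hb := bounds k l m r s c z w hz hw (hPs ▸ hP)
      refine ⟨k, l, m, r, ?_, ?_⟩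
      · push_cast
        exact hb.1
      have hs' : |s| ≤ ((100 : ℕ) : ℝ) := by push_cast; exact hb.2.1
      have hc' : |c| ≤ ((100 : ℕ) : ℝ) := by push_cast; exact hb.2.2
      have hrelm : ∀ z' w' : ℂ, (z' = z ∧ w' = w) ∨ (z' = -z ∧ w' = -w) →
          rel (site k l m r (s, c, z', w')) P := by
        intro z' w' h
        rcases h with ⟨h1, h2⟩ | ⟨h1, h2⟩
        · rw [h1, h2, ← hPs]; exact hRE.refl P
        · rw [h1, h2, hPs]
          exact hRE.symm (hFl k l m r s c z w).1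
      by_cases hzw : z = 0 ∧ w = 0
      · obtain ⟨hz0, hw0⟩ := hzw
        subst hz0 hw0
        cases d with
        | none =>
          refine ⟨(s, c, 0, 0), hs', hc', Or.inr ⟨by simp, by simp, ?_⟩⟩
          unfold chB
          simp only [hSq.2.1, mul_zero, if_true]
          rw [hPs]
        | some v =>
          by_cases hv : ‖v‖ ≤ 1
          · refine ⟨(s, c, 0, v), hs', hc', Or.inl ⟨hv, by simp, ?_⟩⟩
            unfold chA
            simp only [hSq.2.1, mul_zero]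
            rw [hPs]
          · have hv1 : 1 < ‖v‖ := not_le.1 hv
            have hv0 : v ≠ 0 := by
              intro h0; rw [h0] at hv1; simp at hv1; linarith
            refine ⟨(s, c, v⁻¹, 0), hs', hc', Or.inr ⟨?_, by simp, ?_⟩⟩
            · simp only [norm_inv]
              exact inv_le_one_of_one_le₀ hv1.le
            · unfold chB
              simp only [hSq.2.1, mul_zero, inv_eq_zero, hv0, if_false, inv_inv]
              rw [hPs]
      · have hns : ∀ z' w' : ℂ, (z' = z ∧ w' = w) ∨ (z' = -z ∧ w' = -w) →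
            ¬ sing (site k l m r (s, c, z', w')) := by
          intro z' w' h hsg
          have hzn : ‖z'‖ < 1 / 4 := by
            rcases h with ⟨h1, h2⟩ | ⟨h1, h2⟩ <;> rw [h1] <;> simp <;> linarith
          have hwn : ‖w'‖ < 1 / 4 := by
            rcases h with ⟨h1, h2⟩ | ⟨h1, h2⟩ <;> rw [h2] <;> simp <;> linarith
          have := hNSi k l m r s c z' w' hzn hwn hsg
          rcases h with ⟨h1, h2⟩ | ⟨h1, h2⟩
          · exact hzw ⟨h1 ▸ this.1, h2 ▸ this.2⟩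
          · refine hzw ⟨?_, ?_⟩
            · have := this.1; rw [h1] at this; exact neg_eq_zero.1 this
            · have := this.2; rw [h2] at this; exact neg_eq_zero.1 this
        by_cases hle : ‖w‖ ≤ ‖z‖
        · have hz0 : z ≠ 0 := by
            intro h0
            apply hzw
            refine ⟨h0, ?_⟩
            rw [h0, norm_zero] at hle
            exact norm_le_zero_iff.1 hle
          refine ⟨(s, c, z ^ 2 / 2, w / z), hs', hc', Or.inl ⟨?_, sqnorm hz, ?_⟩⟩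
          · simp only [norm_div]
            exact div_le_one_of_le₀ hle (norm_nonneg z)
          · have hor : (Pool.Agent.W8.LS.sq (z ^ 2 / 2) = z ∧ w / z * Pool.Agent.W8.LS.sq (z ^ 2 / 2) = w) ∨
                (Pool.Agent.W8.LS.sq (z ^ 2 / 2) = -z ∧ w / z * Pool.Agent.W8.LS.sq (z ^ 2 / 2) = -w) := by
              rcases hSq.2.2.2.2.2 z with h | h
              · left; rw [h]; exact ⟨rfl, by field_simp⟩
              · right; rw [h]; exact ⟨rfl, by field_simp⟩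
            unfold chA
            refine (hPE _ _ _ _).2 ⟨hrelm _ _ hor, fun h => absurd h (hns _ _ hor)⟩
        · have hlt : ‖z‖ < ‖w‖ := not_le.1 hle
          have hw0 : w ≠ 0 := by
            intro h0; rw [h0, norm_zero] at hlt; linarith [norm_nonneg z]
          refine ⟨(s, c, z / w, w ^ 2 / 2), hs', hc', Or.inr ⟨?_, sqnorm hw, ?_⟩⟩
          · simp only [norm_div]
            exact div_le_one_of_le₀ hlt.le (norm_nonneg w)
          · have hor : (z / w * Pool.Agent.W8.LS.sq (w ^ 2 / 2) = z ∧ Pool.Agent.W8.LS.sq (w ^ 2 / 2) = w) ∨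
                (z / w * Pool.Agent.W8.LS.sq (w ^ 2 / 2) = -z ∧ Pool.Agent.W8.LS.sq (w ^ 2 / 2) = -w) := by
              rcases hSq.2.2.2.2.2 w with h | h
              · left; rw [h]; exact ⟨by field_simp, rfl⟩
              · right; rw [h]; exact ⟨by field_simp, rfl⟩
            unfold chB
            refine (hPE _ _ _ _).2 ⟨hrelm _ _ hor, fun h => absurd h (hns _ _ hor)⟩

end

end Pool.Agent.W491.LS
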